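import Pool.Agent.Work.MP_add580_gt.Bridge

/-!
There are isospectral spherical space forms of dimension `n ≡ 1 (mod 4)` (namely `n = 137`) whose
fundamental groups are not isomorphic.

The groups are the metacyclic groups of order `819` generated by `A, B` with `A^91 = B^9 = 1` and
`B A B⁻¹ = A^16`, respectively `B A B⁻¹ = A^9`, acting on `ℂ^69 = ℝ^138` by the sum of the `23`
irreducible fixed point free representations of degree `3` indexed by the nontrivial cosets of the
subgroup generated by `16`, respectively `9`, in the group of units modulo `91`.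
-/

namespace Pool.Agent.Results.MP_add580_gt.NonIsomorphicPair

open Pool.Agent.Work.MP_add580_gt.Spec

theorem result : ∃ n : ℕ, n ≡ 1 [MOD 4] ∧
    ∃ M N : SpaceForm n, Isospectral M N ∧ IsEmpty (M.Γ ≃* N.Γ) :=
  Pool.Agent.Work.MP_add580_gt.Bridge.main

end Pool.Agent.Results.MP_add580_gt.NonIsomorphicPair
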